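import Pool.Agent.T9h35.TA.Core
import Pool.Agent.T9h35.TX.Main
import Pool.Agent.T9h34.S.AltMain

set_option autoImplicit false

/-!
# Circuits with real gates that are correct on alternating slices: the parameters
-/

namespace Pool.Agent.T9h35.TA

open Finset
open Pool.Agent.T9h34 (ind ind_of ind_not ind_nonneg ind_le_one ind_mono ind_or_le Ev Ev_const
  Ev_mono' Ground wordSet card_wordSet chi pull graphInput)
open Pool.Agent.T9h34.S (GGround mono_step)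
open Pool.Agent.T9h35.TX Pool.Agent.T9h35.RW
open scoped Classical

/-- Circuits of nondecreasing gates of fan-in `f` with fewer than `2 ^ l` gates err on the
block. -/
theorem block_hard {a r β m l f lam c : ℕ} {S : T9h34.G.Row a (r * β) → Fin 4 → Fin m}
    {N : T9h34.G.NoiseOp (Ground a (r * β))} {B κ : ℝ} (hl : 100 ≤ l) (hβ : β ≤ lam)
    (hc : 3 * l < c * β)
    (hX : Fintype.card (Ground a (r * β)) + 1 ≤ 2 ^ lam)
    (H : TX.Hyp N (wordSet (T9h34.G.sparseCode S)) (5 * (lam * c)) c f B κ ((1 / 2 : ℝ) ^ β))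
    (hη : N.iter (5 * (lam * c) + 1)
      (fun U => ind (∃ s, wordSet (T9h34.G.sparseCode S) s ⊆ U)) ≤ (1 / 2 : ℝ) ^ (2 * l))
    (C : RW.Circuit (Ground a (r * β))) (hm : ∀ g ∈ C.gates, g.IsMono f) (hs : C.size < 2 ^ l)
    (hacc : ∀ s, C.eval (chi (wordSet (T9h34.G.sparseCode S) s)) = true) :
    ∃ U : Finset (Ground a (r * β)), (¬ ∃ s, wordSet (T9h34.G.sparseCode S) s ⊆ U) ∧
      C.eval (chi U) = true := by
  by_contra hcon
  push Not at hcon
  have h1 := TX.domination H C hm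
  have h2 : TX.err (Ground a (r * β)) (5 * (lam * c)) c C.size ((1 / 2 : ℝ) ^ β) ≤
      2 * (1 / 2 : ℝ) ^ (2 * l) := terr_small hβ hc (by omega) hs hX
  unfold TX.err at h2
  have h3 : Ev (wordSet (T9h34.G.sparseCode S)) (fun Z => ind (C.eval (chi Z) = true)) = 1 := by
    rw [← Ev_const (wordSet (T9h34.G.sparseCode S)) (1 : ℝ)]
    apply le_antisymm
    · exact Ev_mono' _ (fun s => by
        simp only [ind_of (hacc s)]
        exact le_rfl)
    · exact Ev_mono' _ (fun s => by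
        simp only [ind_of (hacc s)]
        exact le_rfl)
  have h4 : N.iter (5 * (lam * c) + 1) (fun U => ind (C.eval (chi U) = true)) ≤
      N.iter (5 * (lam * c) + 1)
        (fun U => ind (∃ s, wordSet (T9h34.G.sparseCode S) s ⊆ U)) := by
    apply N.iter_mono
    intro U
    apply ind_mono
    intro hU
    by_contra hno
    exact absurd hU (by simpa using hcon U (by push Not at hno; exact hno))
  have h5 : (1 / 2 : ℝ) ^ (2 * l) ≤ 1 / 32 := by
    calc (1 / 2 : ℝ) ^ (2 * l) ≤ (1 / 2) ^ 5 :=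
          pow_le_pow_of_le_one (by norm_num) (by norm_num) (by omega)
      _ = 1 / 32 := by norm_num
  linarith

/-- The number of variables of a block. -/
theorem ground_size {L f z l w y β c J lam a r : ℕ} (hL1 : 1 ≤ L)
    (hz : z = Nat.log 2 (L + f) + 1) (hl : l = 2 * L + 100) (hw : w = 2 * l + f + 2)
    (hy : y = Nat.log 2 w) (hβ : 1 ≤ β) (hβl : β ≤ l) (hc : c = 3 * l / β + 1) (hJ : J = y + 2)
    (hlam : lam = 16 * (y + β)) (ha : a ≤ 1601 * (c * r ^ 2))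
    (hrβ : r * β ≤ 9 * (y + β))
    (h2b : 2 ^ (2 * (r * β)) ≤ 4608 * (J ^ 2 * lam * (c + f)) * 2 ^ (4 * β)) :
    a * 2 ^ (2 * (r * β)) ≤ 10 ^ 22 * (L * (L + f) * z ^ 5 * 2 ^ (5 * β)) := by
  have hlL : l ≤ 102 * L := by omega
  have hwL : w ≤ 206 * (L + f) := by omega
  have hyz : y ≤ z + 7 := by
    have h1 : w < 2 ^ z * 2 ^ 8 := by
      have h2 : L + f < 2 ^ z := by rw [hz]; exact Nat.lt_pow_succ_log_self (by norm_num) _
      calc w ≤ 206 * (L + f) := hwL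
        _ < 206 * 2 ^ z := Nat.mul_lt_mul_of_pos_left h2 (by norm_num)
        _ ≤ 256 * 2 ^ z := Nat.mul_le_mul_right _ (by norm_num)
        _ = 2 ^ z * 2 ^ 8 := by ring
    rw [← pow_add] at h1
    have h3 : Nat.log 2 w < z + 8 := (Nat.log_lt_iff_lt_pow (by norm_num) (by omega)).2 h1
    omega
  have hz1 : 1 ≤ z := by omega
  have hy1 : 1 ≤ y := by
    rw [hy]
    have h1 : Nat.log 2 (2 ^ 1) ≤ Nat.log 2 w := Nat.log_mono_right (by omega)
    rwa [Nat.log_pow (by norm_num)] at h1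
  have hy8 : y ≤ 8 * z := by omega
  have hc3 : c ≤ 4 * l := by
    rw [hc]
    have := Nat.div_le_self (3 * l) β
    omega
  have hw2 : c + f ≤ 2 * w := by
    have h1 : c ≤ 3 * l + 1 := by
      rw [hc]
      have := Nat.div_le_self (3 * l) β
      omega
    omega
  have hr18 : r ≤ 18 * y := by
    have h1 : r * β ≤ (18 * y) * β := by
      refine hrβ.trans ?_
      have h2 : y ≤ y * β := Nat.le_mul_of_pos_right _ hβ
      have h3 : β ≤ y * β := Nat.le_mul_of_pos_left _ hy1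
      have h4 : 18 * y * β = 9 * (y * β + y * β) := by ring
      rw [h4]
      omega
    exact Nat.le_of_mul_le_mul_right h1 hβ
  have haa : a ≤ 2074896 * (l * y ^ 2) := by
    calc a ≤ 1601 * (c * r ^ 2) := ha
      _ ≤ 1601 * ((4 * l) * (18 * y) ^ 2) :=
          Nat.mul_le_mul_left _ (Nat.mul_le_mul hc3 (Nat.pow_le_pow_left hr18 2))
      _ = 2074896 * (l * y ^ 2) := by ring
  have hJ3 : J ≤ 3 * y := by omega
  have hβ2 : 1 + β ≤ 2 ^ β := by rw [add_comm]; exact succ_le_two_pow β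
  have hlamy : lam ≤ 16 * (y * 2 ^ β) := by
    rw [hlam]
    apply Nat.mul_le_mul_left
    calc y + β ≤ y + y * β := Nat.add_le_add_left (Nat.le_mul_of_pos_left _ hy1) _
      _ = y * (1 + β) := by ring
      _ ≤ y * 2 ^ β := Nat.mul_le_mul_left _ hβ2
  obtain ⟨E, hE⟩ : ∃ E, E = 2 ^ β := ⟨_, rfl⟩
  have hE4 : 2 ^ (4 * β) = E ^ 4 := by rw [hE, ← pow_mul]; congr 1; ring
  have hE5 : 2 ^ (5 * β) = E ^ 5 := by rw [hE, ← pow_mul]; congr 1; ring
  rw [hE4] at h2b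
  rw [← hE] at hlamy
  rw [hE5]
  calc a * 2 ^ (2 * (r * β)) ≤ (2074896 * (l * y ^ 2)) *
        (4608 * (J ^ 2 * lam * (c + f)) * E ^ 4) := Nat.mul_le_mul haa h2b
    _ ≤ (2074896 * (l * y ^ 2)) *
        (4608 * ((3 * y) ^ 2 * (16 * (y * E)) * (2 * w)) * E ^ 4) := by
        apply Nat.mul_le_mul_left
        apply Nat.mul_le_mul_right
        apply Nat.mul_le_mul_left
        exact Nat.mul_le_mul (Nat.mul_le_mul (Nat.pow_le_pow_left hJ3 2) hlamy) hw2
    _ = (2074896 * 1327104) * (l * w * y ^ 5 * E ^ 5) := by ring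
    _ ≤ (2074896 * 1327104) * ((102 * L) * (206 * (L + f)) * (8 * z) ^ 5 * E ^ 5) := by
        apply Nat.mul_le_mul_left
        apply Nat.mul_le_mul_right
        exact Nat.mul_le_mul (Nat.mul_le_mul hlL hwL) (Nat.pow_le_pow_left hy8 5)
    _ = (2074896 * 1327104 * 102 * 206 * 8 ^ 5) * (L * (L + f) * z ^ 5 * E ^ 5) := by ring
    _ ≤ 10 ^ 22 * (L * (L + f) * z ^ 5 * E ^ 5) := Nat.mul_le_mul_right _ (by norm_num)

/-- The block. -/
theorem block_size {L β : ℕ} (f z : ℕ) (hL1 : 1 ≤ L) (hβ : 1 ≤ β) (hβL : β ≤ L)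
    (hz : z = Nat.log 2 (L + f) + 1) :
    ∃ (a r m : ℕ) (S : T9h34.G.Row a (r * β) → Fin 4 → Fin m), 1 ≤ a ∧
    (a * 2 + a * (2 * r)) * β ^ 4 ≤ 10 ^ 12 * (L * (z + β) ^ 3) ∧
    a * 2 ^ (2 * (r * β)) ≤ 10 ^ 22 * (L * (L + f) * z ^ 5 * 2 ^ (5 * β)) ∧
    (4 * (a * 2 * 2 ^ (r * β) + a * (2 * r) * 2 ^ (4 * β))) ^ 2 ≤
      4 * 10 ^ 33 * (L ^ 2 * (L + f) * z ^ 7 * 2 ^ (9 * β)) ∧
    ∀ C : RW.Circuit (Ground a (r * β)), (∀ g ∈ C.gates, g.IsMono f) → C.size < 2 ^ L →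
        (∀ s, C.eval (chi (wordSet (T9h34.G.sparseCode S) s)) = true) →
        ∃ U : Finset (Ground a (r * β)), (¬ ∃ s, wordSet (T9h34.G.sparseCode S) s ⊆ U) ∧
          C.eval (chi U) = true := by
  obtain ⟨l, hl⟩ : ∃ l, l = 2 * L + 100 := ⟨_, rfl⟩
  obtain ⟨w, hw⟩ : ∃ w, w = 2 * l + f + 2 := ⟨_, rfl⟩
  obtain ⟨y, hy⟩ : ∃ y, y = Nat.log 2 w := ⟨_, rfl⟩
  obtain ⟨c, hc⟩ : ∃ c, c = 3 * l / β + 1 := ⟨_, rfl⟩
  obtain ⟨J, hJ⟩ : ∃ J, J = y + 2 := ⟨_, rfl⟩
  obtain ⟨lam, hlam⟩ : ∃ lam, lam = 16 * (y + β) := ⟨_, rfl⟩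
  obtain ⟨a, r, m, S, N, B, κ, ha1, hr1, ha, hrβ, h2b, hX, H, hη⟩ :=
    tblock (l := l) (f := f) (w := w) (by omega) hβ hw hy hc hJ hlam
  have hcβ : 3 * l < c * β := by
    rw [hc]
    have := Nat.lt_mul_div_succ (3 * l) hβ
    rwa [mul_comm β] at this
  obtain ⟨hgr, hw2⟩ := tsizes hL1 hz hl hw hy hβ (by omega) hc hJ hlam hr1 ha hrβ h2b
  refine ⟨a, r, m, S, ha1, hgr, ground_size hL1 hz hl hw hy hβ (by omega) hc hJ hlam ha hrβ h2b,
    hw2, ?_⟩
  intro C hm hs hacc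
  exact block_hard (l := l) (by omega) (by omega) hcβ hX H hη C hm
    (hs.trans_le (Nat.pow_le_pow_right (by norm_num) (by omega))) hacc

theorem fanIn_le {ι : Type*} {f f' d : ℕ} (h : f ≤ f') {C : RW.Circuit ι} (hC : C.FanIn f d) :
    C.FanIn f' d := by
  intro g hg
  have h1 := hC g hg
  cases g with
  | mono args φ => exact ⟨h1.1.trans h, h1.2⟩
  | other tests φ => exact h1

/-- The quantitative theorem. -/
theorem alt_main (n q M p f L W β : ℕ) (y z : ℕ → ℕ) (hβ : 1 ≤ β) (hβL : β ≤ L)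
    (hW : 10 ^ 38 * L ^ 2 * (L + f) * (Nat.log 2 (L + f) + 1) ^ 7 * 2 ^ (9 * β) ≤ W ^ 2)
    (hWq : 10 ^ 38 * L * (Nat.log 2 (L + f) + 1 + β) ^ 3 ≤ q * β ^ 4)
    (hM0 : 0 < M) (hM : M ≤ p ^ 2)
    (hy0 : q.choose 2 + n * (p * W) ≤ y 0)
    (hz0 : z (M - 1) + n * (p * W) ≤
      SimpleGraph.extremalNumber n (⊤ : SimpleGraph (Fin q)))
    (h3 : ∀ i < M, y i + 10 ^ 38 * L * (L + f) * (Nat.log 2 (L + f) + 1) ^ 5 * 2 ^ (5 * β) ≤ z i)
    (h4 : ∀ i, i + 1 < M →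
      z i + 10 ^ 38 * L * (L + f) * (Nat.log 2 (L + f) + 1) ^ 5 * 2 ^ (5 * β) ≤ y (i + 1))
    {dd : ℕ} (C : RW.Circuit (Fin n × Fin n))
    (hd' : C.FanIn f dd) (hs' : C.size + C.numTests + 1 < 2 ^ L)
    (hpos : ∀ i < M, ∀ G : SimpleGraph (Fin n), G.edgeSet.ncard = y i →
      (∃ c : Finset (Fin n), G.IsClique (c : Set (Fin n)) ∧ q ≤ c.card) →
        C.eval (graphInput G) = true)
    (hneg : ∀ i < M, ∀ G : SimpleGraph (Fin n), G.edgeSet.ncard = z i →
      (¬ ∃ c : Finset (Fin n), G.IsClique (c : Set (Fin n)) ∧ q ≤ c.card) →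
        ¬ C.eval (graphInput G) = true) :
    ∃ A B : ℕ → SimpleGraph (Fin n),
      (∀ i < M, A i ≤ B i) ∧ (∀ i, i + 1 < M → B i ≤ A (i + 1)) ∧
      (∀ i < M, ¬ ∃ c : Finset (Fin n), (B i).IsClique (c : Set (Fin n)) ∧ q ≤ c.card) ∧
      (∀ i < M, (A i).edgeSet.ncard < y i) ∧ (∀ i < M, (B i).edgeSet.ncard = z i) ∧
      ∀ i < M, C.reads (graphInput (A i)) ≠ C.reads (graphInput (B i)) := by
  have hL1 : 1 ≤ L := hβ.trans hβL
  have hp : 1 ≤ p := by
    by_contra hp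
    have : p = 0 := by omega
    rw [this] at hM
    simp at hM
    omega
  have hd : C.FanIn (f + 2) dd := fanIn_le (by omega) hd'
  obtain ⟨x, hx⟩ : ∃ x, x = Nat.log 2 (L + f) + 1 := ⟨_, rfl⟩
  rw [← hx] at hW hWq h3 h4
  obtain ⟨x', hx'⟩ : ∃ x', x' = Nat.log 2 (L + (f + 2)) + 1 := ⟨_, rfl⟩
  have hxx : x' ≤ 3 * x := by
    have h1 : Nat.log 2 (L + (f + 2)) < x + 2 := by
      apply (Nat.log_lt_iff_lt_pow (by norm_num) (by omega)).2
      have h2 : L + f < 2 ^ x := by rw [hx]; exact Nat.lt_pow_succ_log_self (by norm_num) _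
      calc L + (f + 2) ≤ 4 * (L + f) := by omega
        _ < 4 * 2 ^ x := by omega
        _ = 2 ^ (x + 2) := by rw [pow_add]; ring
    omega
  obtain ⟨a, r, m, S, ha, hgr0, hX, hw2, hard⟩ := block_size (f + 2) x' hL1 hβ hβL hx'
  have hgr1 : a * 2 + a * (2 * r) ≤ q := by
    have h1 : (a * 2 + a * (2 * r)) * β ^ 4 ≤ q * β ^ 4 := by
      refine hgr0.trans (le_trans ?_ hWq)
      calc 10 ^ 12 * (L * (x' + β) ^ 3) ≤ 10 ^ 12 * (L * (3 * (x + β)) ^ 3) :=
            Nat.mul_le_mul_left _ (Nat.mul_le_mul_left _ (Nat.pow_le_pow_left (by omega) 3))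
        _ = (27 * 10 ^ 12) * (L * (x + β) ^ 3) := by ring
        _ ≤ 10 ^ 38 * (L * (x + β) ^ 3) := Nat.mul_le_mul_right _ (by norm_num)
        _ = _ := by ring
    exact Nat.le_of_mul_le_mul_right h1 (by positivity)
  have hX1 : a * 2 ^ (2 * (r * β)) ≤ 10 ^ 38 * L * (L + f) * x ^ 5 * 2 ^ (5 * β) := by
    refine hX.trans ?_
    calc 10 ^ 22 * (L * (L + (f + 2)) * x' ^ 5 * 2 ^ (5 * β))
        ≤ 10 ^ 22 * (L * (3 * (L + f)) * (3 * x) ^ 5 * 2 ^ (5 * β)) := by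
          apply Nat.mul_le_mul_left
          apply Nat.mul_le_mul_right
          exact Nat.mul_le_mul (Nat.mul_le_mul_left _ (by omega)) (Nat.pow_le_pow_left hxx 5)
      _ = (10 ^ 22 * 729) * (L * (L + f) * x ^ 5 * 2 ^ (5 * β)) := by ring
      _ ≤ 10 ^ 38 * (L * (L + f) * x ^ 5 * 2 ^ (5 * β)) := Nat.mul_le_mul_right _ (by norm_num)
      _ = _ := by ring
  have hw3 : (4 * (a * 2 * 2 ^ (r * β) + a * (2 * r) * 2 ^ (4 * β))) ^ 2 ≤ W ^ 2 := by
    refine hw2.trans (le_trans ?_ hW)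
    calc 4 * 10 ^ 33 * (L ^ 2 * (L + (f + 2)) * x' ^ 7 * 2 ^ (9 * β))
        ≤ 4 * 10 ^ 33 * (L ^ 2 * (3 * (L + f)) * (3 * x) ^ 7 * 2 ^ (9 * β)) := by
          apply Nat.mul_le_mul_left
          apply Nat.mul_le_mul_right
          exact Nat.mul_le_mul (Nat.mul_le_mul_left _ (by omega)) (Nat.pow_le_pow_left hxx 7)
      _ = (4 * 10 ^ 33 * 6561) * (L ^ 2 * (L + f) * x ^ 7 * 2 ^ (9 * β)) := by ring
      _ ≤ 10 ^ 38 * (L ^ 2 * (L + f) * x ^ 7 * 2 ^ (9 * β)) :=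
          Nat.mul_le_mul_right _ (by norm_num)
      _ = _ := by ring
  have hW4 : 4 * (a * 2 * 2 ^ (r * β) + a * (2 * r) * 2 ^ (4 * β)) ≤ W :=
    (Nat.pow_le_pow_iff_left (by norm_num)).1 hw3
  have hpow0 : 1 ≤ a * 2 * 2 ^ (r * β) :=
    Nat.succ_le_of_lt (Nat.mul_pos (by omega) (Nat.pow_pos (by norm_num)))
  have hW1 : 1 ≤ W := by omega
  -- the number of vertices of the grid
  obtain ⟨w, hw⟩ : ∃ w, w = a * 2 * (p * 2 ^ (r * β)) + a * (2 * r) * 2 ^ (4 * β) := ⟨_, rfl⟩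
  have hwp : 2 * w ≤ p * W := by
    calc 2 * w = p * (2 * (a * 2 * 2 ^ (r * β))) + 1 * (2 * (a * (2 * r) * 2 ^ (4 * β))) := by
          rw [hw]; ring
      _ ≤ p * (2 * (a * 2 * 2 ^ (r * β))) + p * (2 * (a * (2 * r) * 2 ^ (4 * β))) :=
          Nat.add_le_add_left (Nat.mul_le_mul_right _ hp) _
      _ = p * (2 * (a * 2 * 2 ^ (r * β) + a * (2 * r) * 2 ^ (4 * β))) := by ring
      _ ≤ p * W := Nat.mul_le_mul_left _ (by omega)
  have hgr : a * 2 + a * (2 * r) ≤ w := by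
    rw [hw]
    have h1 : a * 2 ≤ a * 2 * (p * 2 ^ (r * β)) := Nat.le_mul_of_pos_right _ (by positivity)
    have h2 : a * (2 * r) ≤ a * (2 * r) * 2 ^ (4 * β) :=
      Nat.le_mul_of_pos_right _ (by positivity)
    omega
  have hq2 : 2 ≤ q := by omega
  have hex : SimpleGraph.extremalNumber n (⊤ : SimpleGraph (Fin q)) ≤ n.choose 2 := by
    rw [Pool.Agent.T9h36.extremal_eq n q hq2, Pool.Agent.T9h36.ncard_edgeSet_eq]
    refine (SimpleGraph.card_edgeFinset_le_card_choose_two).trans (le_of_eq ?_)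
    rw [Fintype.card_fin]
  have hzle := mono_step (fun i hi => (Nat.le_add_right _ _).trans (h3 i hi))
    (fun i hi => (Nat.le_add_right _ _).trans (h4 i hi))
  have hyz0 := h3 0 hM0
  have hz00 := hzle 0 hM0
  have hcc : q.choose 2 + n * (p * W) ≤ n.choose 2 := by omega
  have hn0 : 0 < n := by
    by_contra hn0
    have hn0' : n = 0 := by omega
    rw [hn0'] at hcc
    have h1 : (2 : ℕ).choose 2 ≤ q.choose 2 := Nat.choose_le_choose 2 (by omega)
    simp at hcc h1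
    omega
  have hpW : 1 ≤ p * W := Nat.succ_le_of_lt (Nat.mul_pos (by omega) (by omega))
  have hpos' : 0 < n * (p * W) := Nat.mul_pos hn0 (by omega)
  have hwn : 2 * (w * n) ≤ n * (p * W) := by
    calc 2 * (w * n) = n * (2 * w) := by ring
      _ ≤ n * (p * W) := Nat.mul_le_mul_left _ hwp
  have hwn' : w ≤ w * n := Nat.le_mul_of_pos_right _ hn0
  have hqn : q ≤ n := by
    by_contra hqn
    have h1 : n.choose 2 ≤ q.choose 2 := Nat.choose_le_choose 2 (by omega)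
    omega
  have hfit : q + w ≤ n := by
    by_contra hfit
    have h1 := Pool.Agent.T9h36.choose_two_add q (n - q)
    have h2 : q + (n - q) = n := by omega
    rw [h2] at h1
    have h3 : (n - q) * n < w * n := Nat.mul_lt_mul_of_pos_right (by omega) hn0
    omega
  obtain ⟨u, hu⟩ : ∃ u, q = a * 2 + (a * (2 * r) + u) :=
    ⟨q - (a * 2 + a * (2 * r)), by omega⟩
  obtain ⟨d, hdn⟩ : ∃ d, u + d + w = n := ⟨n - u - w, by omega⟩
  have hcardG : Fintype.card (TGrp a r u) = q := by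
    simp only [TGrp, Fintype.card_sum, Fintype.card_prod, Fintype.card_fin, Fintype.card_bool]
    omega
  have hcardV : Fintype.card (TVtx a r β 4 u p) = u + w := by
    simp only [TVtx, Fintype.card_sum, Fintype.card_prod, Fintype.card_fin, Fintype.card_bool,
      Fintype.card_fun, ZMod.card]
    rw [hw]
    ring
  have hchoose : (u + w).choose 2 ≤ q.choose 2 + w * n := by
    calc (u + w).choose 2 ≤ (q + w).choose 2 := Nat.choose_le_choose 2 (by omega)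
      _ ≤ q.choose 2 + w * (q + w) := Pool.Agent.T9h36.choose_two_add q w
      _ ≤ q.choose 2 + w * n := Nat.add_le_add_left (Nat.mul_le_mul_left _ hfit) _
  have haX : a ≤ a * 2 ^ (2 * (r * β)) := Nat.le_mul_of_pos_right _ (by positivity)
  exact alt_core (d := d) S (by omega) n q w L M (f + 2) dd y z hcardG.symm hcardV hdn
    hard (by omega) C hd hs' hM0 hM hpos hneg
    (fun _ => by omega)
    (fun i hi => by
      have h5 := hzle i hi
      omega)
    (fun i hi => by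
      have h5 := h3 i hi
      omega)
    (fun i hi => by
      have h5 := h4 i hi
      omega)

end Pool.Agent.T9h35.TA
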