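import Pool.Agent.T9h34.V.Defs
import Pool.Agent.T9h35.RW.Pot

set_option autoImplicit false

/-!
# The two definitions of the tests of a circuit agree
-/

namespace Pool.Agent.T9h35.TA

open Pool.Agent.T9h35.RW

variable {ι : Type*}

theorem tests_eq (g : Gate ι) : VC34.tests g = g.tests := by cases g <;> rfl

theorem numTests_eq (C : Circuit ι) : VC34.numTests C = C.numTests := by
  unfold VC34.numTests Circuit.numTests
  simp only [tests_eq]

theorem answers_eq (C : Circuit ι) (x : ι → Bool) : VC34.answers C x = C.reads x := by
  unfold VC34.answers Circuit.reads
  apply List.map_congr_left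
  intro j _
  unfold VC34.answersAt Circuit.readsAt
  cases C.gates[j]? with
  | none => rfl
  | some g => simp only [tests_eq]

end Pool.Agent.T9h35.TA
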