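import Pool.Agent.T9h34.S.PadGrid
import Pool.Agent.T9h35.TX.Gadget

set_option autoImplicit false

/-!
# Padding the grid of blocks to graphs with a prescribed number of edges, letters of `β` bits

The same as `Pool.Agent.T9h34.S.PadGrid` (by helper34 and helper36) for the gadget of
`Pool.Agent.T9h35.TX`.
-/

namespace Pool.Agent.T9h35.TA

open Finset Pool.Agent.T9h34 Pool.Agent.T9h34.S Pool.Agent.T9h35.TX
open Pool.Agent.T9h34.S.Gr (HasWord exists_between)
open scoped Classical

variable {a r β k m u d p : ℕ}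

/-- The vertices of the block, universal vertices, and `d` dummy vertices. -/
abbrev TV (a r β k u p d : ℕ) : Type := TVtx a r β k u p ⊕ Fin d

/-- Adjacency in the graph of all the optional edges: every optional edge contains a dummy vertex,
and its ends have different colours modulo `c`. -/
def tadj (c : ℕ) : TV a r β k u p d → TV a r β k u p d → Prop
  | .inr j, .inr j' => (u + j) % c ≠ (u + j') % c
  | .inr j, .inl (.inr (.inr i)) => (u + j) % c ≠ (i : ℕ) % c
  | .inl (.inr (.inr i)), .inr j => (i : ℕ) % c ≠ (u + j) % c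
  | .inl (.inl _), .inr _ => False
  | .inl (.inr (.inl _)), .inr _ => False
  | .inr _, .inl (.inl _) => False
  | .inr _, .inl (.inr (.inl _)) => False
  | .inl _, .inl _ => False

/-- The graph of the optional edges. -/
def THg (a r β k u p d c : ℕ) : SimpleGraph (TV a r β k u p d) where
  Adj := tadj c
  symm := ⟨by
    rintro ((x | x | x) | x) ((y | y | y) | y) h
    · exact h
    · exact h
    · exact h
    · exact h
    · exact h
    · exact h
    · exact h
    · exact h
    · exact h
    · exact h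
    · exact h
    · exact Ne.symm h
    · exact h
    · exact h
    · exact Ne.symm h
    · exact Ne.symm h⟩
  loopless := ⟨by
    rintro ((x | x | x) | x) h
    · exact h
    · exact h
    · exact h
    · exact h rfl⟩

/-- The embedding of the structured vertices. -/
def tinl (a r β k u p d : ℕ) : TVtx a r β k u p ↪ TV a r β k u p d := ⟨Sum.inl, Sum.inl_injective⟩

variable (S : G.Row a (r * β) → Fin k → Fin m)

/-- The graph with block variables `Z` and optional edges `D`. -/
def WW (Z : Finset (GGround a (r * β) p)) (D : SimpleGraph (TV a r β k u p d)) :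
    SimpleGraph (TV a r β k u p d) :=
  (tgraph (u := u) S Z).map (tinl a r β k u p d) ⊔ D

theorem gr_mono {Z Z' : Finset (GGround a (r * β) p)} (hZ : Z ⊆ Z') :
    tgraph (u := u) S Z ≤ tgraph S Z' := by
  intro x y h
  rw [tgraph_adj] at h ⊢
  cases hE : tedge S x y with
  | inl q => rw [hE] at h; exact hZ h
  | inr c => rw [hE] at h; exact h

theorem WW_mono {Z Z' : Finset (GGround a (r * β) p)} {D D' : SimpleGraph (TV a r β k u p d)}
    (hz : Z ⊆ Z') (hD : D ≤ D') : WW S Z D ≤ WW S Z' D' :=
  sup_le_sup (SimpleGraph.map_monotone _ (gr_mono S hz)) hD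

theorem Hg_inl {c : ℕ} (x y : TVtx a r β k u p) :
    ¬ (THg a r β k u p d c).Adj (Sum.inl x) (Sum.inl y) := by
  intro h
  change tadj c _ _ at h
  rcases x with x | x | x <;> rcases y with y | y | y <;> exact h

theorem WW_inl {c : ℕ} {Z : Finset (GGround a (r * β) p)} {D : SimpleGraph (TV a r β k u p d)}
    (hD : D ≤ THg a r β k u p d c) (x y : TVtx a r β k u p) :
    (WW S Z D).Adj (Sum.inl x) (Sum.inl y) ↔ (tgraph (u := u) S Z).Adj x y := by
  constructor
  · rintro (h | h)
    · exact (SimpleGraph.map_adj_apply (f := tinl a r β k u p d) (a := x) (b := y)).1 h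
    · exact (Hg_inl x y (hD h)).elim
  · intro h
    left
    exact (SimpleGraph.map_adj_apply (f := tinl a r β k u p d) (a := x) (b := y)).2 h

theorem WW_inr {Z : Finset (GGround a (r * β) p)} {D : SimpleGraph (TV a r β k u p d)}
    (x : TV a r β k u p d) (j : Fin d) : (WW S Z D).Adj x (Sum.inr j) ↔ D.Adj x (Sum.inr j) := by
  constructor
  · rintro (h | h)
    · rw [SimpleGraph.map_adj] at h
      obtain ⟨u', v', _, _, h⟩ := h
      exact (Sum.inl_ne_inr h).elim
    · exact h
  · exact fun h => Or.inr h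

/-- The colour of a universal vertex or a dummy vertex. -/
def col : TV a r β k u p d → ℕ
  | .inr j => u + j
  | .inl (.inr (.inr i)) => i
  | .inl (.inl _) => 0
  | .inl (.inr (.inl _)) => 0

theorem clique_card_le {Z : Finset (GGround a (r * β) p)} (T : Finset (TVtx a r β k u p))
    (hT : (tgraph (u := u) S Z).IsClique (T : Set (TVtx a r β k u p))) :
    T.card ≤ Fintype.card (TGrp a r u) := by
  have hinj : Set.InjOn tgrp (T : Set (TVtx a r β k u p)) := by
    intro x hx y hy hxy
    by_contra hne
    exact (tbase_of_adj S (hT hx hy hne)).1 hxy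
  rw [← Finset.card_image_of_injOn hinj]
  exact Finset.card_le_univ _

theorem WW_clique {c : ℕ} (ha : 0 < a)
    (hc : c + 1 = Fintype.card (TGrp a r u)) {Z : Finset (GGround a (r * β) p)}
    {D : SimpleGraph (TV a r β k u p d)} (hD : D ≤ THg a r β k u p d c) :
    (∃ Q : Finset (TV a r β k u p d), (WW S Z D).IsClique (Q : Set (TV a r β k u p d)) ∧
      Fintype.card (TGrp a r u) ≤ Q.card) ↔ HasWord S Z := by
  have hcardG : Fintype.card (TGrp a r u) = a * 2 + (a * (2 * r) + u) := by
    simp only [TGrp, Fintype.card_sum, Fintype.card_prod, Fintype.card_fin, Fintype.card_bool]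
  have huc : u < c := by omega
  constructor
  · rintro ⟨Q, hQ, hcard⟩
    by_cases hj : ∃ j, Sum.inr j ∈ Q
    · exfalso
      obtain ⟨j, hj⟩ := hj
      have hadj : ∀ x ∈ Q, ∀ y ∈ Q, x ≠ y → (WW S Z D).Adj x y := fun x hx y hy hxy => hQ hx hy hxy
      have hcol : ∀ x ∈ Q, (∃ i, x = Sum.inr i) ∨ (∃ i, x = Sum.inl (Sum.inr (Sum.inr i))) := by
        intro x hx
        by_cases hxj : x = Sum.inr j
        · exact Or.inl ⟨j, hxj⟩
        have h1 := hD ((WW_inr S _ _).1 (hadj x hx _ hj hxj))
        change tadj c _ _ at h1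
        rcases x with (x | x | x) | x
        · exact h1.elim
        · exact h1.elim
        · exact Or.inr ⟨x, rfl⟩
        · exact Or.inl ⟨x, rfl⟩
      have hinj : Set.InjOn (fun x : TV a r β k u p d => col x % c) Q := by
        intro x hx y hy hxy
        by_contra hne
        have h1 := hadj x hx y hy hne
        rcases hcol x hx with ⟨i, rfl⟩ | ⟨i, rfl⟩ <;> rcases hcol y hy with ⟨i', rfl⟩ | ⟨i', rfl⟩
        · exact (hD ((WW_inr S _ _).1 h1) : tadj c _ _) hxy
        · exact (hD ((WW_inr S _ _).1 h1.symm) : tadj c _ _) hxy.symm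
        · exact (hD ((WW_inr S _ _).1 h1) : tadj c _ _) hxy
        · apply hne
          have hxy' : (i : ℕ) % c = (i' : ℕ) % c := hxy
          have hi := i.2
          have hi' := i'.2
          rw [Nat.mod_eq_of_lt (by omega), Nat.mod_eq_of_lt (by omega)] at hxy'
          rw [Fin.ext hxy']
      have := card_le_card_of_injOn (s := Q) (t := Finset.range c)
        (fun x : TV a r β k u p d => col x % c)
        (fun x _ => by
          rw [coe_range, Set.mem_Iio]
          exact Nat.mod_lt _ (by omega)) hinj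
      rw [card_range] at this
      omega
    · push Not at hj
      have hQl : (tgraph (u := u) S Z).IsClique (Q.toLeft : Set (TVtx a r β k u p)) := by
        intro x hx y hy hxy
        rw [mem_coe, mem_toLeft] at hx hy
        exact (WW_inl S hD x y).1 (hQ hx hy fun h => hxy (Sum.inl_injective h))
      have hcardl : Q.toLeft.card = Q.card := by
        have h1 := card_toLeft_add_card_toRight (u := Q)
        have h2 : Q.toRight = ∅ := by
          apply eq_empty_of_forall_notMem
          intro j hj'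
          rw [mem_toRight] at hj'
          exact hj j hj'
        rw [h2, card_empty] at h1
        omega
      have hle := clique_card_le S _ hQl
      rw [← tclique_iff (u := u) S ha Z]
      refine ⟨Q.toLeft, ?_⟩
      rw [SimpleGraph.isNClique_iff]
      exact ⟨hQl, by omega⟩
  · intro hz
    obtain ⟨T, hT⟩ := (tclique_iff (u := u) S ha Z).2 hz
    rw [SimpleGraph.isNClique_iff] at hT
    refine ⟨T.map (tinl a r β k u p d), ?_, by rw [card_map, hT.2]⟩
    rw [coe_map]
    exact (hT.1.map (f := tinl a r β k u p d)).mono le_sup_left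

/-! ### Numbers of edges -/

theorem ncard_map_inl (H : SimpleGraph (TVtx a r β k u p)) :
    (H.map (tinl a r β k u p d)).edgeSet.ncard = H.edgeSet.ncard := by
  rw [SimpleGraph.edgeSet_map, Set.ncard_image_of_injective _ (Function.Embedding.injective _)]

theorem WW_ncard_le (Z : Finset (GGround a (r * β) p)) (D : SimpleGraph (TV a r β k u p d)) :
    (WW S Z D).edgeSet.ncard ≤ (tgraph (u := u) S Z).edgeSet.ncard + D.edgeSet.ncard := by
  rw [WW, SimpleGraph.edgeSet_sup]
  refine (Set.ncard_union_le _ _).trans ?_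
  rw [ncard_map_inl]

theorem WW_ncard {c : ℕ} (Z : Finset (GGround a (r * β) p)) {D : SimpleGraph (TV a r β k u p d)}
    (hD : D ≤ THg a r β k u p d c) :
    (WW S Z D).edgeSet.ncard = (tgraph (u := u) S Z).edgeSet.ncard + D.edgeSet.ncard := by
  rw [WW, SimpleGraph.edgeSet_sup, Set.ncard_union_eq ?_ (Set.toFinite _)
    (Set.toFinite _), ncard_map_inl]
  rw [Set.disjoint_left]
  intro e h1 h2
  rw [SimpleGraph.edgeSet_map] at h1
  obtain ⟨e', -, rfl⟩ := h1
  induction e' using Sym2.ind with
  | _ x y =>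
  exact Hg_inl x y (hD (show D.Adj (Sum.inl x) (Sum.inl y) from h2))

/-- The first vertex of the edge of a block variable. -/
def v1 (q : GGround a (r * β) p) : TVtx a r β k u p := Sum.inl ((q.2.1, false), (q.1.1, fun j => q.2.2 (false, j)))

/-- The second vertex of the edge of a block variable. -/
def v2 (q : GGround a (r * β) p) : TVtx a r β k u p := Sum.inl ((q.2.1, true), (q.1.2, fun j => q.2.2 (true, j)))

/-- The edge of a block variable. -/
def bedge (q : GGround a (r * β) p) : Sym2 (TVtx a r β k u p) := s(v1 q, v2 q)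

theorem bedge_inj : Function.Injective (bedge (a := a) (r := r) (β := β) (k := k) (u := u) (p := p)) := by
  rintro ⟨⟨e1, e2⟩, ⟨i, y⟩⟩ ⟨⟨e1', e2'⟩, ⟨i', y'⟩⟩ h
  simp only [bedge, v1, v2, Sym2.eq_iff, Sum.inl.injEq, Prod.mk.injEq, Bool.false_eq_true,
    Bool.true_eq_false, and_false, false_and, or_false, and_true] at h
  obtain ⟨⟨rfl, rfl, h1⟩, -, rfl, h2⟩ := h
  have : y = y' := by
    funext q
    obtain ⟨q1, q2⟩ := q
    cases q1
    · exact congrFun h1 q2
    · exact congrFun h2 q2
  rw [this]

/-- A variable is live if some message selects its edge. -/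
def Live (q : GGround a (r * β) p) : Prop := TBase S (v1 (u := 0) q) (v2 q)

theorem tlabel_inl {x y : TVtx a r β k u p} {q : GGround a (r * β) p} (hxy : tgrp x ≠ tgrp y)
    (h : tlabel x y = Sum.inl q) : (x = v1 q ∧ y = v2 q) ∨ (x = v2 q ∧ y = v1 q) := by
  rcases x with ⟨⟨i, h1⟩, ⟨c, z⟩⟩ | x
  · rcases y with ⟨⟨i', h2⟩, ⟨c', z'⟩⟩ | y
    · simp only [tlabel] at h
      by_cases hi : i = i'
      · subst hi
        rw [if_pos rfl, Sum.inl.injEq] at h
        subst h
        have hne : h1 ≠ h2 := by
          intro e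
          apply hxy
          simp [tgrp, e]
        cases h1 <;> cases h2
        · exact (hne rfl).elim
        · left
          simp [v1, v2, blk, comb]
        · right
          simp [v1, v2, blk, comb]
        · exact (hne rfl).elim
      · rw [if_neg hi] at h
        simp at h
    · simp [tlabel] at h
  · simp [tlabel] at h

theorem tlabel_v (q : GGround a (r * β) p) : tlabel (v1 q : TVtx a r β k u p) (v2 q) = Sum.inl q := by
  obtain ⟨⟨e1, e2⟩, ⟨i, y⟩⟩ := q
  simp only [v1, v2, tlabel, if_true, blk, Bool.false_eq_true, if_false]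
  congr 3
  funext q
  obtain ⟨q1, q2⟩ := q
  cases q1 <;> simp [comb]

theorem base_live {q : GGround a (r * β) p} (h : TBase S (v1 q : TVtx a r β k u p) (v2 q)) : Live S q := by
  obtain ⟨-, s, σ, h1, h2⟩ := h
  refine ⟨by simp [tgrp, v1, v2], s, σ, ?_, ?_⟩
  · simp only [tgrp, v1, tvert, Sum.inl.injEq] at h1 ⊢
    exact h1
  · simp only [tgrp, v2, tvert, Sum.inl.injEq] at h2 ⊢
    exact h2

theorem live_base {q : GGround a (r * β) p} (h : Live S q) : TBase S (v1 q : TVtx a r β k u p) (v2 q) := by
  obtain ⟨-, s, σ, h1, h2⟩ := h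
  refine ⟨by simp [tgrp, v1, v2], s, σ, ?_, ?_⟩
  · simp only [tgrp, v1, tvert, Sum.inl.injEq] at h1 ⊢
    exact h1
  · simp only [tgrp, v2, tvert, Sum.inl.injEq] at h2 ⊢
    exact h2

theorem live_word (e : Fin p × Fin p) (s : Fin m → ZMod 2) {g : Ground a (r * β)}
    (hg : g ∈ wordSet (G.sparseCode S) s) : Live S (e, g) := by
  rw [mem_wordSet] at hg
  refine ⟨by simp [tgrp, v1, v2], s, fun h => if h = true then e.2 else e.1, ?_, ?_⟩
  · simp [tgrp, v1, tvert, hg]
  · simp [tgrp, v2, tvert, hg]

theorem gr_edges (Z : Finset (GGround a (r * β) p)) :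
    (tgraph (u := u) S Z).edgeSet =
      (tgraph (u := u) S (∅ : Finset (GGround a (r * β) p))).edgeSet ∪
        bedge '' ((Z.filter (Live S) : Finset (GGround a (r * β) p)) : Set (GGround a (r * β) p)) := by
  ext e
  induction e using Sym2.ind with
  | _ x y =>
  constructor
  · intro h
    rw [SimpleGraph.mem_edgeSet] at h
    have hbase := tbase_of_adj S h
    rw [tgraph_adj] at h
    have he : tedge S x y = tlabel x y := by
      unfold tedge
      rw [if_pos hbase]
    rw [he] at h
    cases hE : tlabel x y with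
    | inl q =>
      rw [hE] at h
      right
      refine ⟨q, ?_, ?_⟩
      · rw [mem_coe, mem_filter]
        refine ⟨h, ?_⟩
        rcases tlabel_inl hbase.1 hE with ⟨rfl, rfl⟩ | ⟨rfl, rfl⟩
        · exact base_live S hbase
        · exact base_live S hbase.symm
      · rcases tlabel_inl hbase.1 hE with ⟨rfl, rfl⟩ | ⟨rfl, rfl⟩
        · rfl
        · exact Sym2.eq_swap
    | inr c =>
      rw [hE] at h
      left
      rw [SimpleGraph.mem_edgeSet, tgraph_adj, he, hE]
      exact h
  · rintro (h | ⟨q, hq, h⟩)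
    · exact SimpleGraph.edgeSet_subset_edgeSet.2 (gr_mono S (Finset.empty_subset _)) h
    · rw [mem_coe, mem_filter] at hq
      rw [← h, bedge, SimpleGraph.mem_edgeSet, tgraph_adj]
      unfold tedge
      rw [if_pos (live_base S hq.2), tlabel_v]
      exact hq.1

theorem gr_ncard (Z : Finset (GGround a (r * β) p)) :
    (tgraph (u := u) S Z).edgeSet.ncard =
      (tgraph (u := u) S (∅ : Finset (GGround a (r * β) p))).edgeSet.ncard +
        (Z.filter (Live S)).card := by
  rw [gr_edges, Set.ncard_union_eq ?_ (Set.toFinite _) (Set.toFinite _),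
    Set.ncard_image_of_injective _ bedge_inj, Set.ncard_coe_finset]
  rw [Set.disjoint_left]
  rintro _ h ⟨q, hq, rfl⟩
  rw [mem_coe, mem_filter] at hq
  rw [bedge, SimpleGraph.mem_edgeSet, tgraph_adj] at h
  unfold tedge at h
  rw [if_pos (live_base S hq.2), tlabel_v] at h
  simp at h

/-! ### Turan graphs -/

/-- The embedding of the Turan graph. -/
def tur (i : Fin (u + d)) : TV a r β k u p d :=
  Sum.elim (fun x => Sum.inl (Sum.inr (Sum.inr x))) Sum.inr (finSumFinEquiv.symm i)

theorem tur_inj : Function.Injective (tur (a := a) (r := r) (β := β) (k := k) (u := u) (d := d) (p := p)) := by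
  intro i j h
  obtain ⟨i, rfl⟩ := finSumFinEquiv.surjective i
  obtain ⟨j, rfl⟩ := finSumFinEquiv.surjective j
  unfold tur at h
  rw [Equiv.symm_apply_apply, Equiv.symm_apply_apply] at h
  rcases i with i | i <;> rcases j with j | j
  · simp only [Sum.elim_inl, Sum.inl.injEq, Sum.inr.injEq] at h
    rw [h]
  · simp at h
  · simp at h
  · simp only [Sum.elim_inr, Sum.inr.injEq] at h
    rw [h]

theorem univ_adj (hp : Fin p) (Z : Finset (GGround a (r * β) p)) (i j : Fin u) (h : i ≠ j) :
    (tgraph (u := u) S Z).Adj (.inr (.inr i)) (.inr (.inr j)) := by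
  have hbase : TBase S (.inr (.inr i) : TVtx a r β k u p) (.inr (.inr j)) := by
    refine ⟨?_, 0, fun _ => hp, rfl, rfl⟩
    simpa [tgrp] using h
  rw [tgraph_adj]
  unfold tedge
  rw [if_pos hbase]
  rfl

theorem tur_adj (hp : Fin p) {c : ℕ} (Z : Finset (GGround a (r * β) p)) (i j : Fin (u + d))
    (h : (SimpleGraph.turanGraph (u + d) c).Adj i j) :
    (WW S Z (THg a r β k u p d c)).Adj (tur i) (tur j) := by
  rw [SimpleGraph.turanGraph_adj] at h
  obtain ⟨i, rfl⟩ := finSumFinEquiv.surjective i
  obtain ⟨j, rfl⟩ := finSumFinEquiv.surjective j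
  unfold tur
  rw [Equiv.symm_apply_apply, Equiv.symm_apply_apply]
  rcases i with i | i <;> rcases j with j | j
  · rw [finSumFinEquiv_apply_left, finSumFinEquiv_apply_left, Fin.val_castAdd,
      Fin.val_castAdd] at h
    refine (WW_inl S le_rfl _ _).2 ?_
    apply univ_adj S hp
    rintro rfl
    exact h rfl
  · rw [finSumFinEquiv_apply_left, finSumFinEquiv_apply_right, Fin.val_castAdd,
      Fin.val_natAdd] at h
    exact (WW_inr S _ _).2 h
  · rw [finSumFinEquiv_apply_left, finSumFinEquiv_apply_right, Fin.val_castAdd,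
      Fin.val_natAdd] at h
    exact ((WW_inr S _ _).2 h.symm).symm
  · rw [finSumFinEquiv_apply_right, finSumFinEquiv_apply_right, Fin.val_natAdd,
      Fin.val_natAdd] at h
    exact (WW_inr S _ _).2 h

theorem tur_ncard (hp : Fin p) (c : ℕ) (Z : Finset (GGround a (r * β) p)) :
    (SimpleGraph.turanGraph (u + d) c).edgeSet.ncard ≤
      (WW S Z (THg a r β k u p d c)).edgeSet.ncard := by
  rw [← Set.ncard_image_of_injective (f := Sym2.map (tur (a := a) (r := r) (β := β) (k := k) (p := p)))
    (SimpleGraph.turanGraph (u + d) c).edgeSet (Sym2.map.injective tur_inj)]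
  apply Set.ncard_le_ncard _ (Set.toFinite _)
  rintro _ ⟨e, he, rfl⟩
  induction e using Sym2.ind with
  | _ x y => exact tur_adj S hp Z x y he

/-- There are enough optional edges. -/
theorem full_ncard (hp : Fin p) {n K w : ℕ} (hK : 2 ≤ K) (hn : u + d + w = n) (Z : Finset (GGround a (r * β) p)) :
    SimpleGraph.extremalNumber n (⊤ : SimpleGraph (Fin K)) ≤
      (WW S Z (THg a r β k u p d (K - 1))).edgeSet.ncard + w * n := by
  subst hn
  rw [Pool.Agent.T9h36.extremal_eq _ K hK]
  exact (Pool.Agent.T9h36.turan_step _ _ _).trans (Nat.add_le_add_right (tur_ncard S hp (K - 1) Z) _)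

/-- The structured part has few edges. -/
theorem gr_ncard_choose (Z : Finset (GGround a (r * β) p)) :
    (tgraph (u := u) S Z).edgeSet.ncard ≤ (Fintype.card (TVtx a r β k u p)).choose 2 := by
  rw [Pool.Agent.T9h36.ncard_edgeSet_eq]
  exact SimpleGraph.card_edgeFinset_le_card_choose_two

/-! ### Transfer to labelled graphs -/

/-- The padded graph on `Fin n`. -/
def Γ {n : ℕ} (ι : TV a r β k u p d ≃ Fin n) (Z : Finset (GGround a (r * β) p))
    (D : SimpleGraph (TV a r β k u p d)) : SimpleGraph (Fin n) := (WW S Z D).comap ι.symm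

theorem Γ_mono {n : ℕ} (ι : TV a r β k u p d ≃ Fin n) {Z Z' : Finset (GGround a (r * β) p)}
    {D D' : SimpleGraph (TV a r β k u p d)} (hz : Z ⊆ Z') (hD : D ≤ D') : Γ S ι Z D ≤ Γ S ι Z' D' :=
  fun _ _ h => WW_mono S hz hD h

theorem Γ_ncard {n : ℕ} (ι : TV a r β k u p d ≃ Fin n) (Z : Finset (GGround a (r * β) p))
    (D : SimpleGraph (TV a r β k u p d)) :
    (Γ S ι Z D).edgeSet.ncard = (WW S Z D).edgeSet.ncard := by
  rw [← Nat.card_coe_set_eq, ← Nat.card_coe_set_eq]
  exact Nat.card_congr (SimpleGraph.Iso.comap ι.symm (WW S Z D)).mapEdgeSet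

theorem Γ_clique {n c : ℕ} (ha : 0 < a)
    (hc : c + 1 = Fintype.card (TGrp a r u))
    (ι : TV a r β k u p d ≃ Fin n) {Z : Finset (GGround a (r * β) p)}
    {D : SimpleGraph (TV a r β k u p d)} (hD : D ≤ THg a r β k u p d c) :
    (∃ Q : Finset (Fin n), (Γ S ι Z D).IsClique (Q : Set (Fin n)) ∧
      Fintype.card (TGrp a r u) ≤ Q.card) ↔ HasWord S Z := by
  rw [← WW_clique S ha hc hD]
  constructor
  · rintro ⟨Q, hQ, hcard⟩
    refine ⟨Q.map ι.symm.toEmbedding, ?_, by rw [card_map]; exact hcard⟩
    intro x hx y hy hxy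
    rw [mem_coe, mem_map] at hx hy
    obtain ⟨x, hx, rfl⟩ := hx
    obtain ⟨y, hy, rfl⟩ := hy
    exact hQ hx hy fun h => hxy (by rw [h])
  · rintro ⟨Q, hQ, hcard⟩
    refine ⟨Q.map ι.toEmbedding, ?_, by rw [card_map]; exact hcard⟩
    intro x hx y hy hxy
    rw [mem_coe, mem_map] at hx hy
    obtain ⟨x, hx, rfl⟩ := hx
    obtain ⟨y, hy, rfl⟩ := hy
    change (WW S Z D).Adj (ι.symm (ι x)) (ι.symm (ι y))
    rw [Equiv.symm_apply_apply, Equiv.symm_apply_apply]
    exact hQ hx hy fun h => hxy (by rw [h])

/-- Every adjacency is a block variable or constant. -/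
noncomputable def projW {n : ℕ} (ι : TV a r β k u p d ≃ Fin n) (D : SimpleGraph (TV a r β k u p d)) :
    Fin n × Fin n → GGround a (r * β) p ⊕ Bool := fun q =>
  match ι.symm q.1, ι.symm q.2 with
  | .inl x, .inl y => tedge S x y
  | x, y => .inr (decide (D.Adj x y))

theorem pull_projW {n c : ℕ} (ι : TV a r β k u p d ≃ Fin n) {D : SimpleGraph (TV a r β k u p d)}
    (hD : D ≤ THg a r β k u p d c) (Z : Finset (GGround a (r * β) p)) :
    pull (projW S ι D) (chi Z) = graphInput (Γ S ι Z D) := by
  funext q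
  obtain ⟨p1, p2⟩ := q
  unfold pull projW graphInput
  rw [Bool.eq_iff_iff, decide_eq_true_eq]
  change _ ↔ (WW S Z D).Adj (ι.symm p1) (ι.symm p2)
  simp only
  rcases h1 : ι.symm p1 with x | i
  · rcases h2 : ι.symm p2 with y | j
    · rw [WW_inl S hD, tgraph_adj]
      simp only
      cases hE : tedge S x y with
      | inl q => simp [chi]
      | inr c => simp
    · rw [WW_inr S]
      simp
  · rcases h2 : ι.symm p2 with y | j
    · rw [SimpleGraph.adj_comm, WW_inr S, SimpleGraph.adj_comm]
      simp
    · rw [WW_inr S]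
      simp

end Pool.Agent.T9h35.TA
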